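import Pool.Agent.H65.Clonoid

set_option autoImplicit false

open Pool.Agent.H65

theorem Pool.Agent.Results.MP_d8c2c9_al.Finite.result (R S A B : Type*) [Ring R] [Ring S]
    [AddCommGroup A] [Module R A] [AddCommGroup B] [Module S B] [Finite A] [Finite B]
    (hc : Nat.Coprime (Nat.card A) (Nat.card B)) :
    {C : ∀ n : ℕ, Set ((Fin (n + 1) → A) → B) | ClonoidDefs.IsClonoid R S C}.Finite :=
  Clonoid.main R S hc
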